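import Mathlib

/-!
# The binomial-coefficient quotient `s_n` (MP_d2c11a_nt)
-/

set_option autoImplicit false

namespace Q279.Sun

/-- `s_n = (6n)! n! / (2 (2n+1) (3n)! ((2n)!)^2)` -/
def s (n : ℕ) : ℚ :=
  ((6 * n).factorial * n.factorial : ℚ) /
    (2 * (2 * n + 1) * (3 * n).factorial * ((2 * n).factorial : ℚ) ^ 2)

/-- `S_p = ∑_{k=1}^{p-1} s_k 108^{-k}` -/
def S (p : ℕ) : ℚ := ∑ k ∈ Finset.Icc 1 (p - 1), s k / 108 ^ k

/-- Congruence modulo `p` in the localisation `ℤ_(p)`: `x - y ∈ p ℤ_(p)`. -/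
def CongrMod (p : ℕ) (x y : ℚ) : Prop := ∃ u v : ℤ, ¬ (p : ℤ) ∣ v ∧ x - y = p * (u / v)

end Q279.Sun
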