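import Pool.Agent.Q279.Sun.Defs

set_option autoImplicit false

/-! Q1: the congruence for `S_p`. -/

namespace Q279.Sun

open Polynomial

/-- `r_k = s_k / 108^k` -/
def r (k : ℕ) : ℚ := s k / 108 ^ k

theorem r_rec (k : ℕ) : (9 * (2 * k + 2) * (2 * k + 3) : ℚ) * r (k + 1) =
    ((6 * k + 1) * (6 * k + 5) : ℚ) * r k := by
  unfold r s
  have h6 : (6 * (k + 1)).factorial = (6 * k + 6) * (6 * k + 5) * (6 * k + 4) * (6 * k + 3) *
      (6 * k + 2) * (6 * k + 1) * (6 * k).factorial := by
    rw [show 6 * (k + 1) = 6 * k + 5 + 1 by ring]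
    simp only [Nat.factorial_succ]
    ring
  have h3 : (3 * (k + 1)).factorial = (3 * k + 3) * (3 * k + 2) * (3 * k + 1) *
      (3 * k).factorial := by
    rw [show 3 * (k + 1) = 3 * k + 2 + 1 by ring]
    simp only [Nat.factorial_succ]
    ring
  have h2 : (2 * (k + 1)).factorial = (2 * k + 2) * (2 * k + 1) * (2 * k).factorial := by
    rw [show 2 * (k + 1) = 2 * k + 1 + 1 by ring]
    simp only [Nat.factorial_succ]
    ring
  have e3 : ((3 * k).factorial : ℚ) ≠ 0 := by exact_mod_cast (Nat.factorial_pos _).ne'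
  have e2 : ((2 * k).factorial : ℚ) ≠ 0 := by exact_mod_cast (Nat.factorial_pos _).ne'
  have e4 : (2 * (k : ℚ) + 1) ≠ 0 := by positivity
  have e5 : (2 * (k : ℚ) + 2) ≠ 0 := by positivity
  have e6 : (2 * (k : ℚ) + 3) ≠ 0 := by positivity
  have e7 : (3 * (k : ℚ) + 3) ≠ 0 := by positivity
  have e8 : (3 * (k : ℚ) + 2) ≠ 0 := by positivity
  have e9 : (3 * (k : ℚ) + 1) ≠ 0 := by positivity
  rw [h6, h3, h2, Nat.factorial_succ k, pow_succ]
  push_cast
  rw [show (2 * ((k : ℚ) + 1) + 1) = 2 * k + 3 by ring]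
  field_simp
  ring

section Red

variable {p : ℕ} [Fact p.Prime]

/-- `x` is `p`-integral and reduces to `c` -/
def Red (x : ℚ) (c : ZMod p) : Prop :=
  ∃ u v : ℤ, (v : ZMod p) ≠ 0 ∧ (v : ℚ) * x = u ∧ c * v = u

theorem ne_zero_of_cast {v : ℤ} (hv : (v : ZMod p) ≠ 0) : (v : ℚ) ≠ 0 := by
  intro h
  apply hv
  have : v = 0 := by exact_mod_cast h
  rw [this]; simp

theorem Red.add {x y : ℚ} {c d : ZMod p} (h1 : Red x c) (h2 : Red y d) : Red (x + y) (c + d) := by
  obtain ⟨u, v, hv, hx, hc⟩ := h1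
  obtain ⟨u', v', hv', hx', hc'⟩ := h2
  refine ⟨u * v' + u' * v, v * v', ?_, ?_, ?_⟩
  · push_cast; exact mul_ne_zero hv hv'
  · push_cast; rw [← hx, ← hx']; ring
  · push_cast; rw [← hc, ← hc']; ring

theorem Red.sum {ι : Type*} (t : Finset ι) (x : ι → ℚ) (c : ι → ZMod p)
    (h : ∀ i ∈ t, Red (x i) (c i)) : Red (∑ i ∈ t, x i) (∑ i ∈ t, c i) := by
  classical
  induction t using Finset.induction_on with
  | empty => exact ⟨0, 1, by simp, by simp, by simp⟩
  | insert a t ha ih =>
    rw [Finset.sum_insert ha, Finset.sum_insert ha]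
    exact (h a (Finset.mem_insert_self a t)).add (ih fun i hi => h i (Finset.mem_insert_of_mem hi))

theorem Red.step {x x' : ℚ} {c c' : ZMod p} {a b : ℤ} (h : Red x c) (ha : (a : ZMod p) ≠ 0)
    (hx : (a : ℚ) * x' = b * x) (hc : (a : ZMod p) * c' = b * c) : Red x' c' := by
  obtain ⟨u, v, hv, hx1, hc1⟩ := h
  refine ⟨b * u, a * v, ?_, ?_, ?_⟩
  · push_cast; exact mul_ne_zero ha hv
  · push_cast
    rw [← hx1]
    linear_combination v * hx
  · push_cast
    rw [← hc1]
    linear_combination v * hc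

theorem Red.congr {x : ℚ} {c : ZMod p} (h : Red x c) (y : ℤ) (hy : c = y) :
    CongrMod p x y := by
  obtain ⟨u, v, hv, hx, hc⟩ := h
  rw [hy] at hc
  have h1 : ((u - y * v : ℤ) : ZMod p) = 0 := by push_cast; rw [← hc]; ring
  rw [ZMod.intCast_zmod_eq_zero_iff_dvd] at h1
  obtain ⟨w, hw⟩ := h1
  refine ⟨w, v, ?_, ?_⟩
  · intro hd
    exact hv ((ZMod.intCast_zmod_eq_zero_iff_dvd v p).2 hd)
  · have hv0 := ne_zero_of_cast hv
    have hw' : (u : ℚ) - y * v = p * w := by exact_mod_cast hw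
    field_simp
    linear_combination hx + hw'

end Red

section Coeff

variable {R : Type*} [CommRing R]

theorem coeff_rec (A : ℤ) (j : ℕ) : ((j : R) + 1) * (j + 2) * (Chebyshev.T R A).coeff (j + 2) =
    ((j : R) ^ 2 - (A : R) ^ 2) * (Chebyshev.T R A).coeff j := by
  have h := Chebyshev.one_sub_X_sq_mul_derivative_derivative_T_eq_poly_in_T (R := R) A
  have h1 := congrArg (fun q => coeff q j) h
  simp only [Function.iterate_succ, Function.iterate_zero, Function.comp_apply, id] at h1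
  have e1 : ((1 - X ^ 2) * derivative (derivative (Chebyshev.T R A))).coeff j =
      ((j : R) + 1) * (j + 2) * (Chebyshev.T R A).coeff (j + 2) - (j : R) * (j - 1) * (Chebyshev.T R A).coeff j := by
    rw [sub_mul, one_mul, coeff_sub, coeff_derivative, coeff_derivative]
    set D := derivative (derivative (Chebyshev.T R A)) with hD
    rcases j with _ | _ | j
    · have e : (X ^ 2 * D).coeff 0 = (0 : R) := by rw [mul_coeff_zero]; simp
      rw [e]
      push_cast
      ring
    · have e : (X ^ 2 * D).coeff (0 + 1) = (0 : R) := by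
        rw [pow_two, mul_assoc, coeff_X_mul, mul_coeff_zero]; simp
      rw [e]
      push_cast
      ring
    · have e : (X ^ 2 * D).coeff (j + 1 + 1) = D.coeff j := by
        rw [pow_two, mul_assoc, coeff_X_mul, coeff_X_mul]
      rw [e, hD, coeff_derivative, coeff_derivative]
      push_cast
      ring
  have e2 : (X * derivative (Chebyshev.T R A) - ((A : ℤ) : R[X]) ^ 2 * Chebyshev.T R A).coeff j =
      (j : R) * (Chebyshev.T R A).coeff j - (A : R) ^ 2 * (Chebyshev.T R A).coeff j := by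
    have e3 : ((A : ℤ) : R[X]) ^ 2 = Polynomial.C ((A : R) ^ 2) := by simp
    rw [coeff_sub, e3, coeff_C_mul]
    congr 1
    rcases j with _ | j
    · rw [mul_coeff_zero]; simp
    · rw [coeff_X_mul, coeff_derivative]; push_cast; ring
  rw [e1, e2] at h1
  linear_combination h1

theorem coeff_one_T (A : ℤ) : (Chebyshev.T R A).coeff 1 = A * (Chebyshev.U R (A - 1)).eval 0 := by
  have h := Chebyshev.T_derivative_eq_U (R := R) A
  have h1 := congrArg (fun q => eval 0 q) h
  simp only [eval_mul, eval_intCast] at h1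
  rw [← h1, ← coeff_zero_eq_eval_zero, coeff_derivative]
  simp

theorem sum_even_odd (f : ℕ → R) (n : ℕ) : ∑ i ∈ Finset.range (2 * n + 1), f i =
    ∑ j ∈ Finset.range (n + 1), f (2 * j) + ∑ k ∈ Finset.range n, f (2 * k + 1) := by
  induction n with
  | zero => simp
  | succ n ih =>
    rw [show 2 * (n + 1) + 1 = (2 * n + 1) + 1 + 1 by ring, Finset.sum_range_succ,
      Finset.sum_range_succ, ih, Finset.sum_range_succ (fun j => f (2 * j)) (n + 1),
      Finset.sum_range_succ (fun j => f (2 * j + 1)) n,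
      show 2 * n + 1 + 1 = 2 * (n + 1) by ring]
    ring

end Coeff

section Main

variable {p : ℕ} [hp : Fact p.Prime]

theorem natCast_ne_zero {a : ℕ} (h0 : 0 < a) (h : a < p) : (a : ZMod p) ≠ 0 := by
  intro h1
  rw [ZMod.natCast_eq_zero_iff] at h1
  exact absurd (Nat.le_of_dvd h0 h1) (by omega)

theorem two_ne (h5 : 5 ≤ p) : (2 : ZMod p) ≠ 0 := by
  have := natCast_ne_zero (p := p) (a := 2) (by norm_num) (by omega)
  simpa using this

theorem three_ne (h5 : 5 ≤ p) : (3 : ZMod p) ≠ 0 := by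
  have := natCast_ne_zero (p := p) (a := 3) (by norm_num) (by omega)
  simpa using this

/-- sum of the odd coefficients of `T_A`, `A` odd -/
theorem sum_odd {n A : ℕ} (hn : p = 2 * n + 1) (h5 : 5 ≤ p) (hA : A < p) (hodd : Odd A) :
    ∑ k ∈ Finset.range n, (Chebyshev.T (ZMod p) A).coeff (2 * k + 1) = 1 := by
  have h2 := two_ne h5
  have : NeZero (2 : ZMod p) := ⟨h2⟩
  have hd : (Chebyshev.T (ZMod p) A).natDegree < 2 * n + 1 := by
    rw [Chebyshev.natDegree_T, Int.natAbs_natCast]; omega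
  have e1 := Chebyshev.T_eval_one (R := ZMod p) A
  have e2 := Chebyshev.T_eval_neg_one (R := ZMod p) A
  rw [eval_eq_sum_range' hd, sum_even_odd] at e1 e2
  simp only [one_pow, mul_one, pow_mul, pow_succ, pow_zero, one_mul, neg_one_mul, neg_neg,
    mul_neg, mul_one] at e1 e2
  rw [Int.negOnePow_odd _ (by exact_mod_cast hodd)] at e2
  simp only [Finset.sum_neg_distrib, Units.val_neg, Units.val_one, Int.cast_neg, Int.cast_one] at e2
  have : (2 : ZMod p) * ∑ k ∈ Finset.range n, (Chebyshev.T (ZMod p) A).coeff (2 * k + 1) = 2 * 1 := by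
    linear_combination e1 - e2
  exact mul_left_cancel₀ h2 this

/-- sum of the even coefficients of `T_A`, `A` even -/
theorem sum_even {n A : ℕ} (hn : p = 2 * n + 1) (h5 : 5 ≤ p) (hA : A < p) (heven : Even A) :
    ∑ j ∈ Finset.range (n + 1), (Chebyshev.T (ZMod p) A).coeff (2 * j) = 1 := by
  have h2 := two_ne h5
  have : NeZero (2 : ZMod p) := ⟨h2⟩
  have hd : (Chebyshev.T (ZMod p) A).natDegree < 2 * n + 1 := by
    rw [Chebyshev.natDegree_T, Int.natAbs_natCast]; omega
  have e1 := Chebyshev.T_eval_one (R := ZMod p) A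
  have e2 := Chebyshev.T_eval_neg_one (R := ZMod p) A
  rw [eval_eq_sum_range' hd, sum_even_odd] at e1 e2
  simp only [one_pow, mul_one, pow_mul, pow_succ, pow_zero, one_mul, neg_one_mul, neg_neg,
    mul_neg, mul_one] at e1 e2
  rw [Int.negOnePow_even _ (by exact_mod_cast heven)] at e2
  simp only [Finset.sum_neg_distrib, Units.val_one, Int.cast_one] at e2
  have : (2 : ZMod p) * ∑ j ∈ Finset.range (n + 1), (Chebyshev.T (ZMod p) A).coeff (2 * j) = 2 * 1 := by
    linear_combination e1 + e2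
  exact mul_left_cancel₀ h2 this

/-- first segment: `k < (p-1)/2` -/
theorem seg_one {n A : ℕ} (hn : p = 2 * n + 1) (h5 : 5 ≤ p) (h9 : (9 : ZMod p) * (A : ZMod p) ^ 2 = 4)
    {κ : ZMod p} (hκ : 2 * (κ * (Chebyshev.T (ZMod p) A).coeff 1) = 1) (k : ℕ) (hk : k < n) :
    Red (r k) (κ * (Chebyshev.T (ZMod p) A).coeff (2 * k + 1)) := by
  have h2 := two_ne h5
  have h3 := three_ne h5
  induction k with
  | zero =>
    refine ⟨1, 2, by simpa using h2, ?_, ?_⟩
    · norm_num [r, s]
    · push_cast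
      rw [mul_comm]
      exact hκ
  | succ k ih =>
    have h4 := natCast_ne_zero (p := p) (a := 2 * k + 2) (by omega) (by omega)
    have h6 := natCast_ne_zero (p := p) (a := 2 * k + 3) (by omega) (by omega)
    have h7 := r_rec k
    have h8 := coeff_rec (R := ZMod p) (A : ℤ) (2 * k + 1)
    refine (ih (by omega)).step (a := 9 * (2 * k + 2) * (2 * k + 3)) (b := (6 * k + 1) * (6 * k + 5))
      ?_ ?_ ?_
    · push_cast at h4 h6 ⊢
      refine mul_ne_zero (mul_ne_zero ?_ h4) h6
      rw [show (9 : ZMod p) = 3 * 3 by norm_num]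
      exact mul_ne_zero h3 h3
    · push_cast
      exact h7
    · rw [show 2 * (k + 1) + 1 = 2 * k + 1 + 2 by ring]
      push_cast at h8 ⊢
      linear_combination (9 * κ) * h8 - κ * (Chebyshev.T (ZMod p) A).coeff (2 * k + 1) * h9

/-- second segment: `k ≥ (p-1)/2` -/
theorem seg_two {n A : ℕ} (hn : p = 2 * n + 1) (h5 : 5 ≤ p) (h9 : (9 : ZMod p) * (A : ZMod p) ^ 2 = 4)
    {ρ : ZMod p} (hρ : Red (r n) ρ) (h0 : (Chebyshev.T (ZMod p) A).coeff 0 = 1) (j : ℕ)
    (hj : j ≤ n) : Red (r (n + j)) (ρ * (Chebyshev.T (ZMod p) A).coeff (2 * j)) := by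
  have h3 := three_ne h5
  have hp0 : (2 * (n : ZMod p) + 1) = 0 := by
    have : ((2 * n + 1 : ℕ) : ZMod p) = 0 := by rw [← hn]; simp
    simpa using this
  induction j with
  | zero => simpa [h0] using hρ
  | succ j ih =>
    have h4 := natCast_ne_zero (p := p) (a := 2 * j + 1) (by omega) (by omega)
    have h6 := natCast_ne_zero (p := p) (a := 2 * j + 2) (by omega) (by omega)
    have h7 := r_rec (n + j)
    have h8 := coeff_rec (R := ZMod p) (A : ℤ) (2 * j)
    refine (ih (by omega)).step (a := 9 * (2 * (n + j) + 2) * (2 * (n + j) + 3))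
      (b := (6 * (n + j) + 1) * (6 * (n + j) + 5)) ?_ ?_ ?_
    · push_cast at h4 h6 ⊢
      rw [show (2 * ((n : ZMod p) + j) + 2) = 2 * j + 1 by linear_combination hp0,
        show (2 * ((n : ZMod p) + j) + 3) = 2 * j + 2 by linear_combination hp0]
      refine mul_ne_zero (mul_ne_zero ?_ h4) h6
      rw [show (9 : ZMod p) = 3 * 3 by norm_num]
      exact mul_ne_zero h3 h3
    · rw [← add_assoc]
      push_cast at h7 ⊢
      exact h7
    · rw [show 2 * (j + 1) = 2 * j + 2 by ring]
      push_cast at h8 ⊢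
      rw [show (2 * ((n : ZMod p) + j) + 2) = 2 * j + 1 by linear_combination hp0,
        show (2 * ((n : ZMod p) + j) + 3) = 2 * j + 2 by linear_combination hp0,
        show (6 * ((n : ZMod p) + j) + 1) = 6 * j - 2 by linear_combination 3 * hp0,
        show (6 * ((n : ZMod p) + j) + 5) = 6 * j + 2 by linear_combination 3 * hp0]
      linear_combination (9 * ρ) * h8 - ρ * (Chebyshev.T (ZMod p) A).coeff (2 * j) * h9

theorem cast_asc (c k : ℕ) : (((c * p + 1).ascFactorial k : ℕ) : ZMod p) = (k.factorial : ZMod p) := by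
  rw [← Nat.one_ascFactorial, Nat.ascFactorial_eq_prod_range, Nat.ascFactorial_eq_prod_range]
  push_cast
  refine Finset.prod_congr rfl fun i _ => ?_
  simp

theorem factorial_ne {k : ℕ} (hk : k < p) : (k.factorial : ZMod p) ≠ 0 := by
  rw [Ne, ZMod.natCast_eq_zero_iff, hp.out.dvd_factorial]
  omega

/-- `s_{(p-1)/2} ≡ -1/4` -/
theorem red_s {n : ℕ} (hn : p = 2 * n + 1) (h5 : 5 ≤ p) : ∃ σ : ZMod p, 4 * σ = -1 ∧ Red (s n) σ := by
  obtain ⟨m, rfl⟩ : ∃ m, n = m + 1 := ⟨n - 1, by omega⟩
  have h2 := two_ne h5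
  have hw : ((2 * (m + 1)).factorial : ZMod p) = -1 := by
    have := ZMod.wilsons_lemma p
    rwa [show p - 1 = 2 * (m + 1) by omega] at this
  have hp0 : (2 * ((m : ZMod p) + 1) + 1) = 0 := by
    have : ((2 * (m + 1) + 1 : ℕ) : ZMod p) = 0 := by rw [← hn]; simp
    simpa using this
  -- factorials
  have f1 : p.factorial = p * (2 * (m + 1)).factorial := by
    conv_lhs => rw [hn]
    rw [Nat.factorial_succ, ← hn]
  have f2 : (3 * (m + 1)).factorial = p.factorial * (p + 1).ascFactorial m := by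
    rw [Nat.factorial_mul_ascFactorial]
    congr 1
    omega
  have f3 : (2 * p - 1).factorial = p.factorial * (p + 1).ascFactorial (2 * (m + 1)) := by
    rw [Nat.factorial_mul_ascFactorial]
    congr 1
    omega
  have f4 : (2 * p).factorial = 2 * p * (2 * p - 1).factorial :=
    (Nat.mul_factorial_pred (by omega)).symm
  have f5 : (6 * (m + 1)).factorial = (2 * p).factorial * (2 * p + 1).ascFactorial (2 * m) := by
    rw [Nat.factorial_mul_ascFactorial]
    congr 1
    omega
  have g1 := cast_asc (p := p) 1 m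
  have g2 := cast_asc (p := p) 1 (2 * (m + 1))
  have g3 := cast_asc (p := p) 2 (2 * m)
  rw [one_mul] at g1 g2
  set a1 := (p + 1).ascFactorial m
  set a2 := (p + 1).ascFactorial (2 * (m + 1))
  set a3 := (2 * p + 1).ascFactorial (2 * m)
  have hm : ((2 * (m + 1)).factorial : ZMod p) =
      (2 * (m : ZMod p) + 2) * (2 * m + 1) * ((2 * m).factorial : ZMod p) := by
    rw [show 2 * (m + 1) = 2 * m + 1 + 1 by ring, Nat.factorial_succ, Nat.factorial_succ]
    push_cast
    ring
  have h3f : (2 : ZMod p) * ((2 * m).factorial : ZMod p) = -1 := by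
    rw [← hw, hm]
    linear_combination (-(2 * m).factorial * (2 * m : ZMod p)) * hp0
  have hden : ((a1 * (2 * (m + 1)).factorial ^ 2 : ℤ) : ZMod p) ≠ 0 := by
    push_cast
    rw [g1, hw]
    have := factorial_ne (p := p) (k := m) (by omega)
    simpa using this
  refine ⟨(m + 1) / 2, ?_, ((a2 * a3 * (m + 1).factorial : ℕ) : ℤ),
    (a1 * (2 * (m + 1)).factorial ^ 2 : ℤ), hden, ?_, ?_⟩
  · field_simp
    linear_combination 2 * hp0
  · -- rational identity
    unfold s
    rw [f5, f4, f3, f2, f1]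
    have hpq : (2 * ((m + 1 : ℕ) : ℚ) + 1) = p := by
      have := congrArg (fun z : ℕ => (z : ℚ)) hn
      push_cast at this ⊢
      exact this.symm
    rw [hpq]
    have e1 : (p : ℚ) ≠ 0 := by exact_mod_cast hp.out.ne_zero
    have e2 : ((2 * (m + 1)).factorial : ℚ) ≠ 0 := by exact_mod_cast (Nat.factorial_pos _).ne'
    have e3 : (a1 : ℚ) ≠ 0 := by
      have : 0 < a1 := Nat.ascFactorial_pos _ _
      exact_mod_cast this.ne'
    push_cast
    field_simp
  · push_cast
    rw [g1, g2, g3, hw, Nat.factorial_succ]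
    push_cast
    field_simp
    linear_combination (((m : ZMod p) + 1) * m.factorial) * h3f

/-- the main computation -/
theorem red_S {n A A' : ℕ} (hn : p = 2 * n + 1) (h5 : 5 ≤ p) (hA : A < p) (hA' : A' < p)
    (ho : Odd A) (he : Even A') (h9 : (9 : ZMod p) * (A : ZMod p) ^ 2 = 4)
    (h9' : (9 : ZMod p) * (A' : ZMod p) ^ 2 = 4)
    (h0 : (Chebyshev.T (ZMod p) A').coeff 0 = 1) {χ κ : ZMod p}
    (hκ : 2 * (κ * (Chebyshev.T (ZMod p) A).coeff 1) = 1) (hχ : (108 : ZMod p) ^ n = χ)
    (hχ2 : χ ^ 2 = 1) (hκχ : 4 * κ = 3 * χ) : ∃ c : ZMod p, 2 * c = χ - 1 ∧ Red (S p) c := by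
  have h2 := two_ne h5
  have h3 := three_ne h5
  obtain ⟨σ, hσ, hs⟩ := red_s hn h5
  have h108 : (108 : ZMod p) ≠ 0 := by
    rw [show (108 : ZMod p) = 2 * 2 * (3 * (3 * 3)) by norm_num]
    exact mul_ne_zero (mul_ne_zero h2 h2) (mul_ne_zero h3 (mul_ne_zero h3 h3))
  have hr : Red (r n) (σ * χ) := by
    refine hs.step (a := 108 ^ n) (b := 1) ?_ ?_ ?_
    · push_cast; exact pow_ne_zero _ h108
    · push_cast
      unfold r
      field_simp
    · push_cast
      rw [hχ]
      linear_combination σ * hχ2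
  have hsum1 := Red.sum (Finset.range n) r _
    fun k hk => seg_one hn h5 h9 hκ k (Finset.mem_range.1 hk)
  have hsum2 := Red.sum (Finset.range (n + 1)) (fun j => r (n + j)) _
    fun j hj => seg_two hn h5 h9' hr h0 j (by have := Finset.mem_range.1 hj; omega)
  rw [← Finset.mul_sum, sum_odd hn h5 hA ho, mul_one] at hsum1
  rw [← Finset.mul_sum, sum_even hn h5 hA' he, mul_one] at hsum2
  have hhalf : Red (p := p) (-1 / 2 : ℚ) (-1 / 2) :=
    ⟨-1, 2, by simpa using h2, by norm_num, by push_cast; field_simp⟩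
  have htot := (hsum1.add hsum2).add hhalf
  have hS : ∑ k ∈ Finset.range n, r k + ∑ j ∈ Finset.range (n + 1), r (n + j) + (-1 / 2 : ℚ) =
      S p := by
    rw [← Finset.sum_range_add]
    have e1 : n + (n + 1) = p := by omega
    rw [e1]
    unfold S
    have e2 : Finset.range p = insert 0 (Finset.Icc 1 (p - 1)) := by
      ext i
      simp only [Finset.mem_range, Finset.mem_insert, Finset.mem_Icc]
      omega
    rw [e2, Finset.sum_insert (by simp)]
    have e3 : r 0 = 1 / 2 := by norm_num [r, s]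
    rw [e3]
    unfold r
    ring
  rw [hS] at htot
  refine ⟨_, ?_, htot⟩
  have h4 : (2 : ZMod p) * (2 * (κ + σ * χ + -1 / 2)) = 2 * (χ - 1) := by
    have hh : (2 : ZMod p) * (-1 / 2) = -1 := by field_simp
    linear_combination hκχ + χ * hσ + 2 * hh
  exact mul_left_cancel₀ h2 h4

omit hp in
theorem not_isSquare_two : ¬ IsSquare ((2 : ℕ) : ZMod 3) := by decide

theorem isSquare_three_iff (h5 : 5 ≤ p) :
    ((p % 12 = 1 ∨ p % 12 = 11) → (3 : ZMod p) ^ (p / 2) = 1) ∧
    ((p % 12 = 5 ∨ p % 12 = 7) → (3 : ZMod p) ^ (p / 2) = -1) := by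
  have h3 := three_ne h5
  have hp2 : p ≠ 2 := by omega
  have fact3 : Fact (Nat.Prime 3) := ⟨Nat.prime_three⟩
  have hcast : ∀ c, p % 3 = c → ((p : ℕ) : ZMod 3) = (c : ZMod 3) := by
    intro c hc
    rw [← hc, ZMod.natCast_mod]
  have sq1 : p % 3 = 1 → IsSquare ((p : ℕ) : ZMod 3) := by
    intro h; rw [hcast 1 h]; exact ⟨1, by simp⟩
  have sq2 : p % 3 = 2 → ¬ IsSquare ((p : ℕ) : ZMod 3) := by
    intro h; rw [hcast 2 h]; exact not_isSquare_two
  have key : IsSquare ((3 : ℕ) : ZMod p) ↔ (3 : ZMod p) ^ (p / 2) = 1 := by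
    have := ZMod.euler_criterion p h3
    exact_mod_cast this
  have alt := ZMod.pow_div_two_eq_neg_one_or_one p h3
  constructor
  · rintro (h | h)
    · exact key.1 ((ZMod.exists_sq_eq_prime_iff_of_mod_four_eq_one (p := p) (q := 3) (by omega)
        (by norm_num)).2 (sq1 (by omega)))
    · exact key.1 ((ZMod.exists_sq_eq_prime_iff_of_mod_four_eq_three (p := p) (q := 3) (by omega)
        (by norm_num) (by omega)).2 (sq2 (by omega)))
  · rintro (h | h)
    · rcases alt with h1 | h1
      · exact absurd ((ZMod.exists_sq_eq_prime_iff_of_mod_four_eq_one (p := p) (q := 3) (by omega)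
          (by norm_num)).1 (key.2 h1)) (sq2 (by omega))
      · exact h1
    · rcases alt with h1 | h1
      · exact absurd (sq1 (by omega)) ((ZMod.exists_sq_eq_prime_iff_of_mod_four_eq_three (p := p)
          (q := 3) (by omega) (by norm_num) (by omega)).1 (key.2 h1))
      · exact h1

/-- **Q1** -/
theorem main_one (p : ℕ) (hpp : p.Prime) (h3p : 3 < p) :
    ((p % 12 = 1 ∨ p % 12 = 11) → CongrMod p (S p) 0) ∧
    ((p % 12 = 5 ∨ p % 12 = 7) → CongrMod p (S p) (-1)) := by
  have hp : Fact p.Prime := ⟨hpp⟩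
  have h5 : 5 ≤ p := by
    by_contra h
    have : p = 4 := by omega
    subst this
    exact absurd hpp (by norm_num)
  have h2 := two_ne h5
  have h3 := three_ne h5
  have hodd : p % 2 = 1 := hpp.eq_two_or_odd.resolve_left (by omega)
  set n := p / 2 with hn'
  have hn : p = 2 * n + 1 := by omega
  obtain ⟨hx1, hx2⟩ := isSquare_three_iff h5
  rw [← hn'] at hx1 hx2
  have h36 : ((36 : ZMod p)) ^ n = 1 := by
    rw [show (36 : ZMod p) = 6 ^ 2 by norm_num, ← pow_mul, show 2 * n = p - 1 by omega]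
    refine ZMod.pow_card_sub_one_eq_one ?_
    rw [show (6 : ZMod p) = 2 * 3 by norm_num]
    exact mul_ne_zero h2 h3
  have h108 : ∀ χ : ZMod p, (3 : ZMod p) ^ n = χ → (108 : ZMod p) ^ n = χ := by
    intro χ h
    rw [show (108 : ZMod p) = 36 * 3 by norm_num, mul_pow, h36, h, one_mul]
  have hpz : (p : ZMod p) = 0 := ZMod.natCast_self p
  have h11 : p % 12 = 1 ∨ p % 12 = 5 ∨ p % 12 = 7 ∨ p % 12 = 11 := by
    have h3' : ¬ 3 ∣ p := by
      intro h
      have := (Nat.prime_dvd_prime_iff_eq Nat.prime_three hpp).1 h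
      omega
    omega
  -- uniform statement
  have key : ∀ t A B : ℕ, A = 2 * t + 1 → B < p → Even B → A < p →
      (3 * (A : ZMod p) = 2 ∨ 3 * (A : ZMod p) = -2) →
      (3 * (B : ZMod p) = 2 ∨ 3 * (B : ZMod p) = -2) → (∃ b, B = 4 * b) →
      ∀ χ : ZMod p, (3 : ZMod p) ^ n = χ → χ ^ 2 = 1 → 2 * χ = 3 * A * ((t : ℤ).negOnePow : ℤ) →
      ∃ c : ZMod p, 2 * c = χ - 1 ∧ Red (S p) c := by
    intro t A B hA hB heB hAp hA3 hB3 hb χ h3χ hχ2 hχe
    obtain ⟨b, rfl⟩ := hb
    have h9 : ∀ x : ZMod p, (3 * x = 2 ∨ 3 * x = -2) → 9 * x ^ 2 = 4 := by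
      rintro x (h | h)
      · linear_combination (3 * x + 2) * h
      · linear_combination (3 * x - 2) * h
    have hc0 : (Chebyshev.T (ZMod p) ((4 * b : ℕ) : ℤ)).coeff 0 = 1 := by
      rw [coeff_zero_eq_eval_zero, show ((4 * b : ℕ) : ℤ) = 2 * ((2 * b : ℕ) : ℤ) by push_cast; ring,
        Chebyshev.T_eval_two_mul_zero, Int.negOnePow_even _ (by exact_mod_cast even_two_mul b)]
      simp
    have hc1 : (Chebyshev.T (ZMod p) (A : ℤ)).coeff 1 =
        (A : ZMod p) * (((t : ℤ).negOnePow : ℤ) : ZMod p) := by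
      rw [coeff_one_T, show ((A : ℤ) - 1) = 2 * (t : ℤ) by rw [hA]; push_cast; ring,
        Chebyshev.U_eval_two_mul_zero]
      push_cast
      rfl
    set ε : ZMod p := (((t : ℤ).negOnePow : ℤ) : ZMod p) with hε
    have hε2 : ε ^ 2 = 1 := by
      rw [hε]
      rcases Int.even_or_odd (t : ℤ) with h | h
      · rw [Int.negOnePow_even _ h]; simp
      · rw [Int.negOnePow_odd _ h]; simp
    have hχ' : 2 * χ = 3 * (A : ZMod p) * ε := hχe
    have h22 : (2 : ZMod p) * 2 ≠ 0 := mul_ne_zero h2 h2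
    refine red_S (A := A) (A' := 4 * b) (κ := 3 * χ / (2 * 2)) hn h5 hAp hB ⟨t, hA⟩ heB
      (h9 _ hA3) (h9 _ hB3) hc0 ?_ (h108 _ h3χ) hχ2 ?_
    · rw [hc1]
      -- 2 * (3 χ / 4 * (A ε)) = 1
      have : (2 * 2) * (2 * (3 * χ / (2 * 2) * ((A : ZMod p) * ε))) = (2 * 2) * 1 := by
        have e1 : (2 * 2) * (2 * (3 * χ / (2 * 2) * ((A : ZMod p) * ε))) =
          2 * χ * (3 * (A : ZMod p) * ε) := by
          field_simp
        rw [e1, ← hχ']
        linear_combination 4 * hχ2
      exact mul_left_cancel₀ h22 this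
    · field_simp
      try ring
  set u := p / 12 with hu
  have hev : (((2 * u : ℕ) : ℤ).negOnePow : ℤ) = 1 := by
    rw [Int.negOnePow_even _ (by exact_mod_cast even_two_mul u)]; rfl
  have hod : (((2 * u + 1 : ℕ) : ℤ).negOnePow : ℤ) = -1 := by
    rw [Int.negOnePow_odd _ (by exact_mod_cast odd_two_mul_add_one u)]; rfl
  have fin : ∀ y : ℤ, (∃ c : ZMod p, 2 * c = 2 * (y : ZMod p) ∧ Red (S p) c) →
      CongrMod p (S p) y := by
    rintro y ⟨c, hc, hr⟩
    exact hr.congr y (mul_left_cancel₀ h2 hc)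
  have hz : ∀ c : ℕ, p = 12 * u + c → (12 * (u : ZMod p) + c) = 0 := by
    intro c h
    have : ((12 * u + c : ℕ) : ZMod p) = 0 := by rw [← h]; exact hpz
    simpa using this
  constructor
  · intro h0
    have h3n := hx1 h0
    have goal : ∃ c : ZMod p, 2 * c = 1 - 1 ∧ Red (S p) c := by
      rcases h0 with h | h
      · have hz1 := hz 1 (by omega)
        push_cast at hz1
        refine key (2 * u) (4 * u + 1) (8 * u) (by ring) (by omega) ⟨4 * u, by ring⟩ (by omega)
          (Or.inl ?_) (Or.inr ?_) ⟨2 * u, by ring⟩ 1 h3n (by ring) ?_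
        · push_cast; linear_combination hz1
        · push_cast; linear_combination 2 * hz1
        · rw [hev]; push_cast; linear_combination -hz1
      · have hz1 := hz 11 (by omega)
        push_cast at hz1
        refine key (2 * u + 1) (4 * u + 3) (8 * u + 8) (by ring) (by omega) ⟨4 * u + 4, by ring⟩
          (by omega) (Or.inr ?_) (Or.inl ?_) ⟨2 * u + 2, by ring⟩ 1 h3n (by ring) ?_
        · push_cast; linear_combination hz1
        · push_cast; linear_combination 2 * hz1
        · rw [hod]; push_cast; linear_combination hz1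
    have := fin 0 (by simpa using goal)
    simpa using this
  · intro h0
    have h3n := hx2 h0
    have goal : ∃ c : ZMod p, 2 * c = -1 - 1 ∧ Red (S p) c := by
      rcases h0 with h | h
      · have hz1 := hz 5 (by omega)
        push_cast at hz1
        refine key (2 * u) (4 * u + 1) (8 * u + 4) (by ring) (by omega) ⟨4 * u + 2, by ring⟩
          (by omega) (Or.inr ?_) (Or.inl ?_) ⟨2 * u + 1, by ring⟩ (-1) h3n (by ring) ?_
        · push_cast; linear_combination hz1
        · push_cast; linear_combination 2 * hz1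
        · rw [hev]; push_cast; linear_combination -hz1
      · have hz1 := hz 7 (by omega)
        push_cast at hz1
        refine key (2 * u + 1) (4 * u + 3) (8 * u + 4) (by ring) (by omega) ⟨4 * u + 2, by ring⟩
          (by omega) (Or.inl ?_) (Or.inr ?_) ⟨2 * u + 1, by ring⟩ (-1) h3n (by ring) ?_
        · push_cast; linear_combination hz1
        · push_cast; linear_combination 2 * hz1
        · rw [hod]; push_cast; linear_combination hz1
    have := fin (-1) (by
      obtain ⟨c, hc, hr⟩ := goal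
      exact ⟨c, by rw [hc]; push_cast; ring, hr⟩)
    simpa using this

end Main

end Q279.Sun
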