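import Pool.Agent.Q279.Sun.One

set_option autoImplicit false

/-! Q2: the power series of `cos (2/3 arccos y)`. -/

namespace Q279.Sun

open Real Set

/-- derivative of a power series with polynomially bounded coefficients -/
theorem hasDerivAt_series {c : ℕ → ℝ} {B : ℝ} (hc : ∀ n, |c n| ≤ B * (n + 1)) {y : ℝ}
    (hy : |y| < 1) : HasDerivAt (fun z => ∑' n, c n * z ^ n)
      (∑' n : ℕ, ((n : ℝ) + 1) * c (n + 1) * y ^ n) y := by
  obtain ⟨ρ, hρ1, hρ2⟩ := exists_between hy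
  have hρ0 : 0 ≤ ρ := (abs_nonneg y).trans hρ1.le
  have hρn : ‖ρ‖ < 1 := by rw [Real.norm_eq_abs, abs_of_nonneg hρ0]; exact hρ2
  set u : ℕ → ℝ := fun n => |c n| * (n * ρ ^ (n - 1)) with hu
  have hB : 0 ≤ B := by
    have := (abs_nonneg _).trans (hc 0)
    simpa using this
  have hsum : Summable u := by
    have h1 : Summable fun n : ℕ => B * (((n : ℝ) ^ 2 * ρ ^ n) + 3 * ((n : ℝ) ^ 1 * ρ ^ n)
        + 2 * ((n : ℝ) ^ 0 * ρ ^ n)) :=
      (((summable_pow_mul_geometric_of_norm_lt_one 2 hρn).add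
        ((summable_pow_mul_geometric_of_norm_lt_one 1 hρn).mul_left 3)).add
        ((summable_pow_mul_geometric_of_norm_lt_one 0 hρn).mul_left 2)).mul_left B
    refine (summable_nat_add_iff 1).1 (Summable.of_nonneg_of_le (fun n => ?_) (fun n => ?_) h1)
    · exact mul_nonneg (abs_nonneg _) (mul_nonneg (Nat.cast_nonneg _) (pow_nonneg hρ0 _))
    · have h2 := hc (n + 1)
      push_cast at h2
      simp only [hu, Nat.add_sub_cancel]
      push_cast
      calc |c (n + 1)| * (((n : ℝ) + 1) * ρ ^ n) ≤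
          (B * ((n : ℝ) + 1 + 1)) * (((n : ℝ) + 1) * ρ ^ n) :=
            mul_le_mul_of_nonneg_right h2 (by positivity)
        _ = _ := by ring
  have key := hasDerivAt_tsum_of_isPreconnected (𝕜 := ℝ) (F := ℝ)
    (g := fun n z => c n * z ^ n) (g' := fun n z => c n * (n * z ^ (n - 1)))
    (t := Metric.ball (0 : ℝ) ρ) (y₀ := 0) (y := y) hsum Metric.isOpen_ball
    (convex_ball (0 : ℝ) ρ).isPreconnected ?_ ?_ ?_ ?_ ?_
  · refine key.congr_deriv ?_
    rw [Summable.tsum_eq_zero_add]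
    · simp only [CharP.cast_eq_zero, zero_mul, mul_zero, zero_add]
      refine tsum_congr fun n => ?_
      rw [Nat.add_sub_cancel]
      push_cast
      ring
    · refine Summable.of_norm_bounded hsum fun n => ?_
      rw [norm_mul, norm_mul, norm_pow, Real.norm_eq_abs, Real.norm_eq_abs, Real.norm_eq_abs,
        Nat.abs_cast]
      show |c n| * (n * |y| ^ (n - 1)) ≤ |c n| * (n * ρ ^ (n - 1))
      gcongr
  · intro n z _
    exact (hasDerivAt_pow n z).const_mul (c n)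
  · intro n z hz
    rw [Metric.mem_ball, dist_zero_right] at hz
    rw [norm_mul, norm_mul, norm_pow, Real.norm_eq_abs (c n), Real.norm_eq_abs (n : ℝ),
      Nat.abs_cast]
    show |c n| * (n * ‖z‖ ^ (n - 1)) ≤ |c n| * (n * ρ ^ (n - 1))
    gcongr
  · rw [Metric.mem_ball, dist_self]
    exact lt_of_le_of_lt (abs_nonneg y) hρ1
  · refine summable_of_ne_finset_zero (s := {0}) fun n hn => ?_
    rw [Finset.mem_singleton] at hn
    simp [hn]
  · rw [Metric.mem_ball, dist_zero_right, Real.norm_eq_abs]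
    exact hρ1

theorem summable_series {c : ℕ → ℝ} {B : ℝ} {k : ℕ} (hc : ∀ n, |c n| ≤ B * (n + 1) ^ k) {y : ℝ}
    (hy : |y| < 1) : Summable fun n => c n * y ^ n := by
  have hB : 0 ≤ B := by
    have := (abs_nonneg _).trans (hc 0)
    simpa using this
  have hyn : ‖|y|‖ < 1 := by rw [Real.norm_eq_abs, abs_abs]; exact hy
  have h1 : Summable fun n : ℕ => B * (2 ^ k * (((n : ℝ) ^ k * |y| ^ n) + ((n : ℝ) ^ 0 * |y| ^ n))) :=
    (((summable_pow_mul_geometric_of_norm_lt_one k hyn).add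
      (summable_pow_mul_geometric_of_norm_lt_one 0 hyn)).mul_left (2 ^ k)).mul_left B
  refine Summable.of_norm_bounded h1 fun n => ?_
  rw [norm_mul, norm_pow, Real.norm_eq_abs, Real.norm_eq_abs]
  have h2 : ((n : ℝ) + 1) ^ k ≤ 2 ^ k * ((n : ℝ) ^ k + 1) := by
    rcases Nat.eq_zero_or_pos n with rfl | hn
    · simp only [CharP.cast_eq_zero, zero_add, one_pow]
      have : (1 : ℝ) ≤ 2 ^ k := one_le_pow₀ (by norm_num)
      have h0 : (0 : ℝ) ≤ 0 ^ k := by positivity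
      nlinarith
    · have hn1 : (1 : ℝ) ≤ n := by exact_mod_cast hn
      calc ((n : ℝ) + 1) ^ k ≤ (2 * n) ^ k := by gcongr; linarith
        _ = 2 ^ k * (n : ℝ) ^ k := by rw [mul_pow]
        _ ≤ _ := by gcongr; linarith
  calc |c n| * |y| ^ n ≤ (B * ((n : ℝ) + 1) ^ k) * |y| ^ n := by gcongr; exact hc n
    _ ≤ (B * (2 ^ k * ((n : ℝ) ^ k + 1))) * |y| ^ n := by gcongr
    _ = _ := by ring

/-- coefficients of `cos (2/3 arccos y)` -/
noncomputable def g : ℕ → ℝ
  | 0 => 1 / 2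
  | 1 => 1 / √3
  | (n + 2) => ((n : ℝ) ^ 2 - 4 / 9) / ((n + 1) * (n + 2)) * g n

theorem g_rec (n : ℕ) : ((n : ℝ) + 1) * (n + 2) * g (n + 2) = ((n : ℝ) ^ 2 - 4 / 9) * g n := by
  rw [g]
  field_simp

theorem sqrt3_pos : 0 < √3 := Real.sqrt_pos.2 (by norm_num)

theorem sqrt3_sq : √3 * √3 = 3 := Real.mul_self_sqrt (by norm_num)

theorem abs_g_step (n : ℕ) : ((n : ℝ) + 1) * (n + 2) * |g (n + 2)| ≤ ((n : ℝ) ^ 2 + (if n = 0 then 1 else 0)) * |g n| := by
  have h := congrArg (fun z => |z|) (g_rec n)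
  simp only [abs_mul] at h
  rw [abs_of_nonneg (by positivity : (0 : ℝ) ≤ (n : ℝ) + 1),
    abs_of_nonneg (by positivity : (0 : ℝ) ≤ (n : ℝ) + 2)] at h
  rw [h]
  refine mul_le_mul_of_nonneg_right ?_ (abs_nonneg _)
  rcases Nat.eq_zero_or_pos n with rfl | hn
  · norm_num
  · have hn1 : (1 : ℝ) ≤ n := by exact_mod_cast hn
    rw [if_neg (by omega), add_zero, abs_of_nonneg (by nlinarith)]
    linarith

theorem abs_g_le_one (n : ℕ) : |g n| ≤ 1 := by
  induction n using Nat.strong_induction_on with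
  | _ n ih =>
    rcases n with _ | _ | n
    · norm_num [g]
    · rw [g, abs_of_nonneg (by positivity), div_le_one sqrt3_pos]
      nlinarith [sqrt3_sq, sqrt3_pos]
    · have h1 := abs_g_step n
      have h2 := ih n (by omega)
      have h3 := abs_nonneg (g n)
      have h4 : ((n : ℝ) ^ 2 + (if n = 0 then 1 else 0)) ≤ ((n : ℝ) + 1) * (n + 2) := by
        split_ifs <;> nlinarith [Nat.cast_nonneg (α := ℝ) n]
      have h5 : (0 : ℝ) < ((n : ℝ) + 1) * (n + 2) := by positivity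
      have h6 : ((n : ℝ) + 1) * (n + 2) * |g (n + 2)| ≤ ((n : ℝ) + 1) * (n + 2) * 1 := by
        calc _ ≤ _ := h1
          _ ≤ ((n : ℝ) + 1) * (n + 2) * 1 := mul_le_mul h4 h2 h3 h5.le
      exact le_of_mul_le_mul_left h6 h5

theorem summable_abs_g : Summable fun n => |g n| := by
  rw [← summable_nat_add_iff 1]
  refine summable_of_sum_range_le (c := 2 * (|g 1| + 2 * |g 2|)) (fun n => abs_nonneg _) fun N => ?_
  have key : ∀ N : ℕ, ∑ n ∈ Finset.range N, |g (n + 1)| ≤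
      2 * (|g 1| + 2 * |g 2| - ((N + 1 : ℕ) : ℝ) * |g (N + 1)| - ((N + 2 : ℕ) : ℝ) * |g (N + 2)|) := by
    intro N
    induction N with
    | zero => simp
    | succ N ih =>
      rw [Finset.sum_range_succ]
      have h1 := abs_g_step (N + 1)
      rw [if_neg (by omega), add_zero] at h1
      push_cast at h1 ih ⊢
      have h0 := abs_nonneg (g (N + 1))
      have hN : (0 : ℝ) ≤ (N : ℝ) := Nat.cast_nonneg _
      -- (N+3) |g (N+3)| ≤ (N+1)^2/(N+2) |g (N+1)|
      have h2 : ((N : ℝ) + 1 + 2) * |g (N + 1 + 2)| ≤ ((N : ℝ) + 1) ^ 2 / (N + 2) * |g (N + 1)| := by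
        rw [div_mul_eq_mul_div, le_div_iff₀ (by positivity)]
        linarith
      have h3 : ((N : ℝ) + 1) ^ 2 / (N + 2) ≤ ((N : ℝ) + 1) - 1 / 2 := by
        rw [div_le_iff₀ (by positivity)]
        nlinarith
      have h4 : ((N : ℝ) + 1) ^ 2 / (N + 2) * |g (N + 1)| ≤ (((N : ℝ) + 1) - 1 / 2) * |g (N + 1)| :=
        mul_le_mul_of_nonneg_right h3 h0
      have e1 : ((N : ℝ) + 1 + 1 + 1) = (N : ℝ) + 1 + 2 := by ring
      rw [show N + 1 + 1 = N + 2 by ring, show N + 1 + 2 = N + 3 by ring] at *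
      nlinarith
  refine (key N).trans ?_
  have h1 : 0 ≤ ((N + 1 : ℕ) : ℝ) * |g (N + 1)| := by positivity
  have h2 : 0 ≤ ((N + 2 : ℕ) : ℝ) * |g (N + 2)| := by positivity
  linarith

/-- `G0` and its derivatives -/
noncomputable def G0 (y : ℝ) : ℝ := ∑' n, g n * y ^ n
noncomputable def G1 (y : ℝ) : ℝ := ∑' n : ℕ, ((n : ℝ) + 1) * g (n + 1) * y ^ n
noncomputable def G2 (y : ℝ) : ℝ :=
  ∑' n : ℕ, ((n : ℝ) + 1) * (((n + 1 : ℕ) : ℝ) + 1) * g (n + 2) * y ^ n

theorem bound0 (n : ℕ) : |g n| ≤ 1 * ((n : ℝ) + 1) := by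
  have h1 := abs_g_le_one n
  have h2 : (0 : ℝ) ≤ n := Nat.cast_nonneg _
  linarith

theorem bound1 (n : ℕ) : |((n : ℝ) + 1) * g (n + 1)| ≤ 1 * ((n : ℝ) + 1) := by
  rw [abs_mul, abs_of_nonneg (by positivity : (0 : ℝ) ≤ (n : ℝ) + 1), one_mul]
  have h2 : (0 : ℝ) ≤ (n : ℝ) + 1 := by positivity
  nlinarith [abs_g_le_one (n + 1)]

theorem hasDerivAt_G0 {y : ℝ} (hy : |y| < 1) : HasDerivAt G0 (G1 y) y :=
  hasDerivAt_series (c := g) (B := 1) bound0 hy

theorem hasDerivAt_G1 {y : ℝ} (hy : |y| < 1) : HasDerivAt G1 (G2 y) y := by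
  have h := hasDerivAt_series (c := fun n => ((n : ℝ) + 1) * g (n + 1)) (B := 1) bound1 hy
  refine HasDerivAt.congr_deriv h ?_
  unfold G2
  refine tsum_congr fun n => ?_
  ring

theorem ode {y : ℝ} (hy : |y| < 1) : (1 - y ^ 2) * G2 y - y * G1 y + 4 / 9 * G0 y = 0 := by
  have s0 : Summable fun n => g n * y ^ n :=
    summable_series (c := g) (B := 1) (k := 1) (fun n => by simpa using bound0 n) hy
  have s1 : Summable fun n : ℕ => ((n : ℝ) * g n) * y ^ n := by
    refine summable_series (c := fun n : ℕ => (n : ℝ) * g n) (B := 1) (k := 1) (fun n => ?_) hy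
    rw [abs_mul, Nat.abs_cast, pow_one, one_mul]
    have h2 : (0 : ℝ) ≤ n := Nat.cast_nonneg _
    nlinarith [abs_g_le_one n]
  have s2 : Summable fun n : ℕ => ((n : ℝ) * (n - 1) * g n) * y ^ n := by
    refine summable_series (c := fun n : ℕ => (n : ℝ) * (n - 1) * g n) (B := 1) (k := 2)
      (fun n => ?_) hy
    have h2 : (0 : ℝ) ≤ n := Nat.cast_nonneg _
    rw [abs_mul]
    have h3 : |(n : ℝ) * (n - 1)| ≤ ((n : ℝ) + 1) ^ 2 := by
      rw [abs_le]; constructor <;> nlinarith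
    have h4 := abs_g_le_one n
    have h5 := abs_nonneg (g n)
    have h6 := abs_nonneg ((n : ℝ) * (n - 1))
    nlinarith
  have s3 : Summable fun n : ℕ => (((n : ℝ) + 1) * (n + 2) * g (n + 2)) * y ^ n := by
    refine summable_series (c := fun n : ℕ => ((n : ℝ) + 1) * (n + 2) * g (n + 2)) (B := 2) (k := 2)
      (fun n => ?_) hy
    have h2 : (0 : ℝ) ≤ n := Nat.cast_nonneg _
    rw [abs_mul, abs_of_nonneg (by positivity : (0 : ℝ) ≤ ((n : ℝ) + 1) * (n + 2))]
    have h4 := abs_g_le_one (n + 2)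
    have h5 := abs_nonneg (g (n + 2))
    nlinarith
  have e1 : y * G1 y = ∑' n : ℕ, ((n : ℝ) * g n) * y ^ n := by
    rw [s1.tsum_eq_zero_add]
    simp only [CharP.cast_eq_zero, zero_mul, zero_add]
    unfold G1
    rw [← tsum_mul_left]
    refine tsum_congr fun n => ?_
    push_cast
    ring
  have e2 : y ^ 2 * G2 y = ∑' n : ℕ, ((n : ℝ) * (n - 1) * g n) * y ^ n := by
    rw [s2.tsum_eq_zero_add, ((summable_nat_add_iff 1).2 s2).tsum_eq_zero_add]
    simp only [CharP.cast_eq_zero, zero_mul, zero_add, Nat.cast_one, sub_self, mul_zero]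
    unfold G2
    rw [← tsum_mul_left]
    refine tsum_congr fun n => ?_
    push_cast
    ring
  have e3 : G2 y = ∑' n : ℕ, (((n : ℝ) + 1) * (n + 2) * g (n + 2)) * y ^ n := by
    unfold G2
    refine tsum_congr fun n => ?_
    push_cast
    ring
  have e4 : (1 - y ^ 2) * G2 y - y * G1 y + 4 / 9 * G0 y =
      G2 y - y ^ 2 * G2 y - y * G1 y + 4 / 9 * G0 y := by ring
  rw [e4, e2, e1, e3]
  unfold G0
  rw [← s3.tsum_sub s2, ← (s3.sub s2).tsum_sub s1, ← tsum_mul_left,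
    ← ((s3.sub s2).sub s1).tsum_add (s0.mul_left _)]
  convert tsum_zero with n
  have h := g_rec n
  linear_combination (y ^ n) * h

theorem G0_zero : G0 0 = 1 / 2 := by
  unfold G0
  rw [tsum_eq_single 0]
  · simp [g]
  · intro n hn
    simp [hn]

theorem G1_zero : G1 0 = 1 / √3 := by
  unfold G1
  rw [tsum_eq_single 0]
  · simp [g]
  · intro n hn
    simp [hn]

theorem abs_cos_lt {θ : ℝ} (h0 : 0 < θ) (hπ : θ < π) : |cos θ| < 1 := by
  have h := Real.sin_pos_of_pos_of_lt_pi h0 hπ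
  have h2 := Real.sin_sq_add_cos_sq θ
  rw [abs_lt]
  constructor <;> nlinarith

theorem G0_cos {θ : ℝ} (h0 : 0 < θ) (hπ : θ < π) : G0 (cos θ) = cos (2 / 3 * θ) := by
  set ψ : ℝ → ℝ := fun θ => G0 (cos θ) - cos (2 / 3 * θ) with hψ
  set ψ' : ℝ → ℝ := fun θ => G1 (cos θ) * (-sin θ) + 2 / 3 * sin (2 / 3 * θ) with hψ'
  have d1 : ∀ θ ∈ Ioo 0 π, HasDerivAt ψ (ψ' θ) θ := by
    intro θ hθ
    have ha := (hasDerivAt_G0 (abs_cos_lt hθ.1 hθ.2)).comp θ (Real.hasDerivAt_cos θ)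
    have hb : HasDerivAt (fun θ : ℝ => cos (2 / 3 * θ)) (-sin (2 / 3 * θ) * (2 / 3 * 1)) θ :=
      ((hasDerivAt_id θ).const_mul (2 / 3)).cos
    refine (ha.sub hb).congr_deriv ?_
    simp only [hψ']
    ring
  have d2 : ∀ θ ∈ Ioo 0 π, HasDerivAt ψ' (-(4 / 9) * ψ θ) θ := by
    intro θ hθ
    have hc := abs_cos_lt hθ.1 hθ.2
    have ha := (hasDerivAt_G1 hc).comp θ (Real.hasDerivAt_cos θ)
    have hs := (Real.hasDerivAt_sin θ).neg
    have hb : HasDerivAt (fun θ : ℝ => 2 / 3 * sin (2 / 3 * θ))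
        (2 / 3 * (cos (2 / 3 * θ) * (2 / 3 * 1))) θ :=
      (((hasDerivAt_id θ).const_mul (2 / 3)).sin).const_mul _
    refine ((ha.mul hs).add hb).congr_deriv ?_
    have ho := ode hc
    have h2 := Real.sin_sq_add_cos_sq θ
    simp only [hψ, Function.comp_apply, Pi.neg_apply]
    linear_combination (G2 (cos θ)) * h2 + ho
  set E : ℝ → ℝ := fun θ => ψ' θ ^ 2 + 4 / 9 * ψ θ ^ 2 with hE
  have d3 : ∀ θ ∈ Ioo 0 π, HasDerivAt E 0 θ := by
    intro θ hθ
    have h1 := ((d2 θ hθ).pow 2).add (((d1 θ hθ).pow 2).const_mul (4 / 9))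
    refine h1.congr_deriv ?_
    push_cast
    ring
  have hconst : E θ = E (π / 2) :=
    isOpen_Ioo.is_const_of_deriv_eq_zero isPreconnected_Ioo
      (fun x hx => (d3 x hx).differentiableAt.differentiableWithinAt)
      (fun x hx => (d3 x hx).deriv) ⟨h0, hπ⟩ ⟨by positivity, by linarith [Real.pi_pos]⟩
  have hE0 : E (π / 2) = 0 := by
    simp only [hE, hψ, hψ', Real.cos_pi_div_two, Real.sin_pi_div_two, G0_zero, G1_zero]
    rw [show 2 / 3 * (π / 2) = π / 3 by ring, Real.cos_pi_div_three, Real.sin_pi_div_three]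
    have := sqrt3_sq
    have hp := sqrt3_pos
    have e : (1 : ℝ) / √3 * -1 + 2 / 3 * (√3 / 2) = 0 := by
      field_simp
      linarith
    rw [e]
    ring
  rw [hE0] at hconst
  have h1 : 0 ≤ ψ' θ ^ 2 := sq_nonneg _
  have h2 : 0 ≤ ψ θ ^ 2 := sq_nonneg _
  have h3 : ψ θ ^ 2 = 0 := by
    have : ψ' θ ^ 2 + 4 / 9 * ψ θ ^ 2 = 0 := hconst
    linarith
  have h4 : ψ θ = 0 := pow_eq_zero_iff (two_ne_zero) |>.1 h3
  have h5 : G0 (cos θ) - cos (2 / 3 * θ) = 0 := h4
  linarith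

theorem G0_eq_open {y : ℝ} (hy : y ∈ Ioo (-1 : ℝ) 1) : G0 y = cos (2 / 3 * arccos y) := by
  have h1 : 0 < arccos y := Real.arccos_pos.2 hy.2
  have h2 : arccos y < π := by
    rcases lt_or_eq_of_le (Real.arccos_le_pi y) with h | h
    · exact h
    · exact absurd (Real.arccos_eq_pi.1 h) (not_le.2 hy.1)
  rw [← G0_cos h1 h2, Real.cos_arccos hy.1.le hy.2.le]

theorem summable_closed {y : ℝ} (hy : |y| ≤ 1) : Summable fun n => g n * y ^ n := by
  refine Summable.of_norm_bounded summable_abs_g fun n => ?_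
  rw [norm_mul, norm_pow, Real.norm_eq_abs, Real.norm_eq_abs]
  exact mul_le_of_le_one_right (abs_nonneg _) (pow_le_one₀ (abs_nonneg y) hy)

theorem G0_eq {y : ℝ} (hy : |y| ≤ 1) : G0 y = cos (2 / 3 * arccos y) := by
  have hcont : ContinuousOn G0 (Icc (-1 : ℝ) 1) := by
    refine continuousOn_tsum (u := fun n => |g n|) (fun n => by fun_prop) summable_abs_g ?_
    intro n y hy
    rw [norm_mul, norm_pow, Real.norm_eq_abs, Real.norm_eq_abs]
    exact mul_le_of_le_one_right (abs_nonneg _) (pow_le_one₀ (abs_nonneg y) (abs_le.2 ⟨hy.1, hy.2⟩))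
  have hcont2 : ContinuousOn (fun y : ℝ => cos (2 / 3 * arccos y)) (Icc (-1 : ℝ) 1) :=
    (Real.continuous_cos.comp (continuous_const.mul Real.continuous_arccos)).continuousOn
  have heq : EqOn G0 (fun y : ℝ => cos (2 / 3 * arccos y)) (Ioo (-1 : ℝ) 1) :=
    fun y hy => G0_eq_open hy
  have := heq.of_subset_closure hcont hcont2 Ioo_subset_Icc_self
    (by rw [closure_Ioo (by norm_num)])
  exact this (abs_le.1 hy)

end Q279.Sun
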