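import Pool.Agent.Q279.Sun.Series

set_option autoImplicit false

/-! Q2: the sequence `t_k`. -/

namespace Q279.Sun

/-- `t_k = 16^{k-1} C(3k-2, k-1) / k` -/
def t (k : ℕ) : ℕ := 16 ^ (k - 1) * ((3 * k - 2).choose (k - 1) / k)

theorem dvd_choose (m : ℕ) : (m + 1) ∣ (3 * m + 1).choose m := by
  have h := Nat.choose_succ_right_eq (3 * m + 1) m
  rw [show 3 * m + 1 - m = 2 * m + 1 by omega] at h
  have hc : Nat.Coprime (m + 1) (2 * m + 1) := by
    have : Nat.Coprime (m + 1) (2 * m + 1 + (m + 1) * 0) := by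
      rw [mul_zero, add_zero]
      rw [show 2 * m + 1 = (m + 1) + m by ring, Nat.coprime_self_add_right]
      exact (Nat.coprime_self_add_left (m := 1) (n := m)).2 (by simp) |> fun h => by
        simpa [add_comm] using h
    simpa using this
  exact hc.dvd_of_dvd_mul_right ⟨(3 * m + 1).choose (m + 1), by rw [← h]; ring⟩

theorem t_succ (m : ℕ) : t (m + 1) * (m + 1) = 16 ^ m * (3 * m + 1).choose m := by
  unfold t
  rw [show 3 * (m + 1) - 2 = 3 * m + 1 by omega, Nat.add_sub_cancel, mul_assoc,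
    Nat.div_mul_cancel (dvd_choose m)]

theorem t_pos (k : ℕ) (hk : 1 ≤ k) : 0 < t k := by
  obtain ⟨m, rfl⟩ : ∃ m, k = m + 1 := ⟨k - 1, by omega⟩
  have h := t_succ m
  have h2 : 0 < (3 * m + 1).choose m := Nat.choose_pos (by omega)
  rcases Nat.eq_zero_or_pos (t (m + 1)) with h0 | h0
  · rw [h0, zero_mul] at h
    have : 0 < 16 ^ m * (3 * m + 1).choose m := by positivity
    omega
  · exact h0

/-- `(2k+1)(k+1) t_{k+1} = 24 (3k-1)(3k+1) t_k` -/
theorem t_rec (m : ℕ) : ((2 * (m + 1) + 1) * (m + 2)) * t (m + 2) =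
    24 * (3 * m + 2) * (3 * m + 4) * t (m + 1) := by
  have h1 := t_succ m
  have h2 := t_succ (m + 1)
  -- (3m+4)! etc
  have f1 := Nat.choose_mul_factorial_mul_factorial (show m ≤ 3 * m + 1 by omega)
  have f2 := Nat.choose_mul_factorial_mul_factorial (show m + 1 ≤ 3 * m + 4 by omega)
  rw [show 3 * m + 1 - m = 2 * m + 1 by omega] at f1
  rw [show 3 * m + 4 - (m + 1) = 2 * m + 3 by omega] at f2
  rw [show 3 * (m + 1) + 1 = 3 * m + 4 by ring] at h2
  set a := (3 * m + 1).choose m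
  set b := (3 * m + 4).choose (m + 1)
  have g1 : (3 * m + 4).factorial = (3 * m + 4) * (3 * m + 3) * (3 * m + 2) *
      (3 * m + 1).factorial := by
    simp only [show 3 * m + 4 = 3 * m + 1 + 1 + 1 + 1 by ring, Nat.factorial_succ]; ring
  have g2 : (2 * m + 3).factorial = (2 * m + 3) * (2 * m + 2) * (2 * m + 1).factorial := by
    simp only [show 2 * m + 3 = 2 * m + 1 + 1 + 1 by ring, Nat.factorial_succ]; ring
  rw [g1, g2, ← f1, Nat.factorial_succ m] at f2
  -- b * (m+1) * m! * (2m+3)(2m+2)(2m+1)! = (3m+4)(3m+3)(3m+2) a m! (2m+1)!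
  have h3 : b * ((m + 1) * ((2 * m + 3) * (2 * m + 2))) =
      (3 * m + 4) * (3 * m + 3) * (3 * m + 2) * a := by
    have hpos : 0 < m.factorial * (2 * m + 1).factorial :=
      Nat.mul_pos (Nat.factorial_pos _) (Nat.factorial_pos _)
    refine Nat.eq_of_mul_eq_mul_right hpos ?_
    linarith
  refine Nat.eq_of_mul_eq_mul_right (show 0 < (m + 1) * (2 * m + 2) by positivity) ?_
  have e1 : (2 * (m + 1) + 1) * (m + 2) * t (m + 2) * ((m + 1) * (2 * m + 2)) =
      (t (m + 1 + 1) * (m + 1 + 1)) * ((m + 1) * ((2 * m + 3) * (2 * m + 2))) := by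
    rw [show m + 1 + 1 = m + 2 by ring]; ring
  have e2 : 24 * (3 * m + 2) * (3 * m + 4) * t (m + 1) * ((m + 1) * (2 * m + 2)) =
      16 * ((3 * m + 4) * (3 * m + 3) * (3 * m + 2)) * (t (m + 1) * (m + 1)) := by
    ring
  rw [e1, e2, h2, h1, mul_assoc, h3, pow_succ]
  ring

theorem aux_two : (-(2 * 16 ^ (0 + 1)) + 2 : ZMod (0 + 2)) = 0 := by decide

theorem dvd_t_add_two (p : ℕ) (hp : p.Prime) : p ∣ t p + 2 := by
  have hF : Fact p.Prime := ⟨hp⟩
  obtain ⟨m, rfl⟩ : ∃ m, p = m + 2 := ⟨p - 2, by have := hp.two_le; omega⟩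
  have h1 := t_succ (m + 1)
  rw [show m + 1 + 1 = m + 2 by ring, show 3 * (m + 1) + 1 = 3 * m + 4 by ring] at h1
  -- choose * (m+1)! = asc
  have h2 := Nat.ascFactorial_eq_factorial_mul_choose (2 * m + 3) (m + 1)
  rw [show 2 * m + 3 + (m + 1) = 3 * m + 4 by ring, show 2 * m + 3 + 1 = 2 * (m + 2) by ring] at h2
  have h3 : (2 * (m + 2)).ascFactorial (m + 1) = 2 * (m + 2) * (2 * (m + 2) + 1).ascFactorial m := by
    have := Nat.ascFactorial_mul_ascFactorial (2 * (m + 2)) 1 m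
    rw [show (2 * (m + 2)).ascFactorial 1 = 2 * (m + 2) by simp [Nat.ascFactorial]] at this
    rw [this, add_comm 1 m]
  rw [h3] at h2
  have h4 : t (m + 2) * (m + 1).factorial = 2 * 16 ^ (m + 1) * (2 * (m + 2) + 1).ascFactorial m := by
    refine Nat.eq_of_mul_eq_mul_right (show 0 < m + 2 by omega) ?_
    calc t (m + 2) * (m + 1).factorial * (m + 2) = (t (m + 2) * (m + 2)) * (m + 1).factorial := by
          ring
      _ = 16 ^ (m + 1) * ((m + 1).factorial * (3 * m + 4).choose (m + 1)) := by rw [h1]; ring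
      _ = _ := by rw [← h2]; ring
  have h5 := congrArg (fun z : ℕ => (z : ZMod (m + 2))) h4
  have h6 := cast_asc (p := m + 2) 2 m
  push_cast at h5 h6
  rw [h6, Nat.factorial_succ] at h5
  have hz : ((m : ZMod (m + 2)) + 2) = 0 := by
    have := ZMod.natCast_self (m + 2)
    push_cast at this
    exact this
  have hne : (m.factorial : ZMod (m + 2)) ≠ 0 := factorial_ne (by omega)
  push_cast at h5
  have h7 : (t (m + 2) : ZMod (m + 2)) = -(2 * 16 ^ (m + 1)) := by
    refine mul_right_cancel₀ hne ?_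
    have e1 : (m : ZMod (m + 2)) + 1 = -1 := by linear_combination hz
    rw [e1] at h5
    linear_combination -h5
  rw [← ZMod.natCast_eq_zero_iff]
  push_cast
  rw [h7]
  rcases eq_or_ne m 0 with rfl | hm
  · exact aux_two
  · have h2ne : (2 : ZMod (m + 2)) ≠ 0 := by
      have := natCast_ne_zero (p := m + 2) (a := 2) (by norm_num) (by omega)
      simpa using this
    have h16 : (16 : ZMod (m + 2)) ≠ 0 := by
      rw [show (16 : ZMod (m + 2)) = 2 ^ 4 by norm_num]
      exact pow_ne_zero _ h2ne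
    have := ZMod.pow_card_sub_one_eq_one h16
    rw [show m + 2 - 1 = m + 1 by omega] at this
    rw [this]
    ring

theorem g_odd (k : ℕ) : g (2 * k + 1) = 2 / √3 * (r k : ℝ) := by
  induction k with
  | zero =>
    have : r 0 = 1 / 2 := by norm_num [r, s]
    rw [this]
    norm_num [g]
  | succ k ih =>
    have h1 := g_rec (2 * k + 1)
    have h2 := congrArg (fun z : ℚ => (z : ℝ)) (r_rec k)
    push_cast at h1 h2
    rw [ih] at h1
    rw [show 2 * (k + 1) + 1 = 2 * k + 1 + 2 by ring]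
    have h3 : (9 * (2 * (k : ℝ) + 2) * (2 * k + 3)) ≠ 0 := by positivity
    refine mul_left_cancel₀ h3 ?_
    linear_combination 9 * h1 - 2 / √3 * h2

theorem g_even (k : ℕ) : g (2 * (k + 1)) * 108 ^ (k + 1) = -12 * (t (k + 1) : ℝ) := by
  induction k with
  | zero =>
    have : t 1 = 1 := by decide
    rw [this]
    norm_num [g]
  | succ k ih =>
    have h1 := g_rec (2 * (k + 1))
    have h2 := congrArg (fun z : ℕ => (z : ℝ)) (t_rec k)
    push_cast at h1 h2
    rw [show 2 * (k + 1 + 1) = 2 * (k + 1) + 2 by ring, show k + 1 + 1 = k + 2 by ring]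
    have h3 : (2 * ((k : ℝ) + 1) + 1) * (2 * (k + 1) + 2) ≠ 0 := by positivity
    refine mul_left_cancel₀ h3 ?_
    rw [pow_succ]
    linear_combination (108 * 108 ^ (k + 1)) * h1 + 108 * ((2 * (k + 1)) ^ 2 - 4 / 9) * ih +
      (2 * 12 : ℝ) * h2

theorem pow_eq (x : ℝ) (k : ℕ) : (6 * √3 * x) ^ (2 * k) = 108 ^ k * x ^ (2 * k) := by
  rw [mul_pow, pow_mul (6 * √3) 2 k]
  congr 2
  rw [mul_pow, Real.sq_sqrt (by norm_num)]
  norm_num

/-- the expansion on the closed interval -/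
theorem expansion (x : ℝ) (hx : |x| ≤ 1 / (6 * √3)) :
    (Summable fun k : ℕ => (s k : ℝ) * x ^ (2 * k + 1)) ∧
    (Summable fun k : ℕ => (t (k + 1) : ℝ) * x ^ (2 * (k + 1))) ∧
    1 / 12 * Real.cos (2 / 3 * Real.arccos (6 * √3 * x)) =
      1 / 24 + ∑' k : ℕ, (s k : ℝ) * x ^ (2 * k + 1) - ∑' k : ℕ, (t (k + 1) : ℝ) * x ^ (2 * (k + 1)) := by
  have hs3 := sqrt3_pos
  have hy : |6 * √3 * x| ≤ 1 := by
    rw [abs_mul, abs_of_nonneg (by positivity : (0 : ℝ) ≤ 6 * √3)]
    rw [le_div_iff₀ (by positivity)] at hx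
    linarith
  set y := 6 * √3 * x with hydef
  have hsum := summable_closed hy
  have e_odd : ∀ k : ℕ, 1 / 12 * (g (2 * k + 1) * y ^ (2 * k + 1)) = (s k : ℝ) * x ^ (2 * k + 1) := by
    intro k
    have h1 : (r k : ℝ) * 108 ^ k = s k := by
      have : r k * 108 ^ k = s k := by unfold r; field_simp
      exact_mod_cast this
    rw [g_odd, pow_succ y, hydef, pow_eq, pow_succ x, ← h1]
    field_simp
    ring
  have e_even : ∀ k : ℕ, 1 / 12 * (g (2 * (k + 1)) * y ^ (2 * (k + 1))) =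
      -((t (k + 1) : ℝ) * x ^ (2 * (k + 1))) := by
    intro k
    have h1 := g_even k
    rw [hydef, pow_eq]
    linear_combination (1 / 12 * x ^ (2 * (k + 1))) * h1
  have so : Summable fun k : ℕ => g (2 * k + 1) * y ^ (2 * k + 1) :=
    hsum.comp_injective (i := fun k : ℕ => 2 * k + 1) (fun a b h => by simpa using h)
  have se : Summable fun k : ℕ => g (2 * k) * y ^ (2 * k) :=
    hsum.comp_injective (i := fun k : ℕ => 2 * k) (fun a b h => by simpa using h)
  have se1 : Summable fun k : ℕ => g (2 * (k + 1)) * y ^ (2 * (k + 1)) :=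
    (summable_nat_add_iff 1).2 se
  have so' := so.mul_left (1 / 12)
  have se' := (se1.mul_left (1 / 12)).neg
  simp only [e_odd] at so'
  simp only [e_even, neg_neg] at se'
  refine ⟨so', se', ?_⟩
  have h0 := G0_eq hy
  rw [← h0]
  unfold G0
  rw [← tsum_even_add_odd se so, se.tsum_eq_zero_add]
  have e1 : 1 / 12 * ∑' k : ℕ, g (2 * k + 1) * y ^ (2 * k + 1) =
      ∑' k : ℕ, (s k : ℝ) * x ^ (2 * k + 1) := by
    rw [← tsum_mul_left]
    exact tsum_congr e_odd
  have e2 : 1 / 12 * ∑' k : ℕ, g (2 * (k + 1)) * y ^ (2 * (k + 1)) =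
      -∑' k : ℕ, (t (k + 1) : ℝ) * x ^ (2 * (k + 1)) := by
    rw [← tsum_mul_left, ← tsum_neg]
    exact tsum_congr e_even
  have e3 : g (2 * 0) * y ^ (2 * 0) = 1 / 2 := by simp [g]
  rw [e3]
  linear_combination e1 + e2

end Q279.Sun
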